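import Pool.Agent.Q253.IT.C9b

/-!
# The numbers `2 k + 1` and `p_(k n) ^ 2 - 2`: the threshold of information

Let `A` be any random set of integers and let `D(x)` be the relative entropy of `A ∩ [3, x)` with respect to Cramér's
model of the primes. We determine the least exponent `θ` such that `D(x) ≤ x ^ θ` does not exclude that the question
has a negative answer for `A`: it is `1 / 4`, and in general `β / (r (1 + β))` for the numbers `2 k + 1` and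
`p_(k n) ^ r - s`, `k ≤ C n ^ β`.
-/

set_option autoImplicit false

namespace Pool.Agent.Results.MP_c971ef_nt.InformationThreshold

open MeasureTheory Filter Pool.Agent.Q120.ET Pool.Agent.Q120.MF Pool.Agent.Q197.CI Pool.Agent.Q253.IT
open scoped Topology

/-- The relative entropy of `A ∩ [3, x)` with respect to Cramér's model. -/
noncomputable def D {Ω : Type*} [MeasurableSpace Ω] (μ : Measure Ω) (A : Ω → Set ℕ) (x : ℕ) : ℝ :=
  relEntropy μ A (Finset.Ico 3 x)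

open Classical in
/-- The number of `1 ≤ k ≤ C n ^ β` for which `2 k + 1` and `p_(k n) ^ r - s` are in `S`, where `p_m` is the `m`-th
element of `S`. -/
noncomputable def num (S : Set ℕ) (r s : ℕ) (C β : ℝ) (n : ℕ) : ℕ :=
  ((Finset.Icc 1 ⌊C * (n : ℝ) ^ β⌋₊).filter (fun k => 2 * k + 1 ∈ S ∧ el S (k * n) ^ r - s ∈ S)).card

/-- Q1 for `n` and the set `S` in place of the primes. -/
def Q1 (S : Set ℕ) (n : ℕ) : Prop := ∃ k : ℕ, 1 ≤ k ∧ k ≤ n ∧ 2 * k + 1 ∈ S ∧ el S (k * n) ^ 2 - 2 ∈ S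

theorem result.{u} :
    (∀ (r s : ℕ) (C β : ℝ), 2 ≤ r → 0 < C → 0 < β →
      (∀ (Ω : Type u) [MeasurableSpace Ω] (μ : Measure Ω) [IsProbabilityMeasure μ] (A : Ω → Set ℕ), IsRandomSet A →
        ∀ θ : ℝ, θ < β / (r * (1 + β)) → (∀ᶠ x : ℕ in atTop, D μ A x ≤ (x : ℝ) ^ θ) →
          ∀ᵐ ω ∂μ, (A ω).Infinite ∧
            Tendsto (fun n : ℕ => (num (A ω) r s C β n : ℝ) * Real.log n ^ 2 / (n : ℝ) ^ β) atTop
              (𝓝 (C / (β * (r * (1 + β)))))) ∧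
      ∃ (Ω : Type) (_ : MeasurableSpace Ω) (μ : Measure Ω) (_ : IsProbabilityMeasure μ) (A : Ω → Set ℕ), IsRandomSet A ∧
        (∃ K : ℝ, ∀ x : ℕ, D μ A x ≤ K * (x : ℝ) ^ (β / (r * (1 + β)))) ∧
        ∀ᵐ ω ∂μ, (A ω).Infinite ∧ ∀ j : ℕ, s + 2 ≤ 2 ^ j → num (A ω) r s C β (2 ^ j) = 0) ∧
    (∀ (Ω : Type u) [MeasurableSpace Ω] (μ : Measure Ω) [IsProbabilityMeasure μ] (A : Ω → Set ℕ), IsRandomSet A →
      ∀ θ : ℝ, θ < 1 / 4 → (∀ᶠ x : ℕ in atTop, D μ A x ≤ (x : ℝ) ^ θ) → ∀ᵐ ω ∂μ, ∀ᶠ n : ℕ in atTop, Q1 (A ω) n) ∧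
    ∃ (Ω : Type) (_ : MeasurableSpace Ω) (μ : Measure Ω) (_ : IsProbabilityMeasure μ) (A : Ω → Set ℕ), IsRandomSet A ∧
      (∃ K : ℝ, ∀ x : ℕ, D μ A x ≤ K * (x : ℝ) ^ (1 / 4 : ℝ)) ∧
      ∀ᵐ ω ∂μ, (A ω).Infinite ∧ ∀ j : ℕ, 2 ≤ j → ¬ Q1 (A ω) (2 ^ j) := by
  classical
  have hpos : ∀ (r s : ℕ) (C β : ℝ), 2 ≤ r → 0 < C → 0 < β →
      ∀ (Ω : Type u) [MeasurableSpace Ω] (μ : Measure Ω) [IsProbabilityMeasure μ] (A : Ω → Set ℕ), IsRandomSet A →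
        ∀ θ : ℝ, θ < β / (r * (1 + β)) → (∀ᶠ x : ℕ in atTop, D μ A x ≤ (x : ℝ) ^ θ) →
          ∀ᵐ ω ∂μ, (A ω).Infinite ∧
            Tendsto (fun n : ℕ => (num (A ω) r s C β n : ℝ) * Real.log n ^ 2 / (n : ℝ) ^ β) atTop
              (𝓝 (C / (β * (r * (1 + β))))) := by
    intro r s C β hr hC hβ Ω _ μ _ A hA θ hθ hent
    have hr0 : (0 : ℝ) < r := by exact_mod_cast (show 0 < r by omega)
    have h0 : 0 < β / (r * (1 + β)) := by positivity
    refine info_place_r hA hr s hC hβ (θ := max θ 0) (le_max_right _ _) (max_lt hθ h0) ?_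
    filter_upwards [hent, eventually_ge_atTop 1] with x h1 h2
    exact h1.trans (Real.rpow_le_rpow_of_exponent_le (by exact_mod_cast h2) (le_max_left _ _))
  have hneg : ∀ (r s : ℕ) (C β : ℝ), 2 ≤ r → 0 < C → 0 < β →
      ∃ (Ω : Type) (_ : MeasurableSpace Ω) (μ : Measure Ω) (_ : IsProbabilityMeasure μ) (A : Ω → Set ℕ), IsRandomSet A ∧
        (∃ K : ℝ, ∀ x : ℕ, D μ A x ≤ K * (x : ℝ) ^ (β / (r * (1 + β)))) ∧
        ∀ᵐ ω ∂μ, (A ω).Infinite ∧ ∀ j : ℕ, s + 2 ≤ 2 ^ j → num (A ω) r s C β (2 ^ j) = 0 := by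
    intro r s C β hr hC hβ
    obtain ⟨h1, h2, h3⟩ := neg_place_r isCramer hr s hC hβ
    refine ⟨ℕ → Bool, inferInstance, cramerMeasure, inferInstance, _, h1, h2, ?_⟩
    filter_upwards [h3] with ω h4
    refine ⟨h4.1, fun j hj => ?_⟩
    unfold num
    rw [Finset.card_eq_zero, Finset.filter_eq_empty_iff]
    intro k hk
    rw [Finset.mem_Icc] at hk
    exact h4.2 j k hj hk.1 ((Nat.cast_le.2 hk.2).trans (Nat.floor_le (by positivity)))
  have e14 : (1 : ℝ) / (((2 : ℕ) : ℝ) * (1 + 1)) = 1 / 4 := by norm_num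
  refine ⟨fun r s C β hr hC hβ => ⟨hpos r s C β hr hC hβ, hneg r s C β hr hC hβ⟩, ?_, ?_⟩
  · intro Ω _ μ _ A hA θ hθ hent
    filter_upwards [hpos 2 2 1 1 le_rfl one_pos one_pos Ω μ A hA θ (by rw [e14]; exact hθ) hent] with ω h1
    have h0 : (0 : ℝ) < 1 / (1 * (((2 : ℕ) : ℝ) * (1 + 1))) := by positivity
    filter_upwards [h1.2.eventually_const_lt h0] with n h2
    have h3 : num (A ω) 2 2 1 1 n ≠ 0 := by
      intro h4
      rw [h4] at h2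
      simp at h2
    unfold num at h3
    obtain ⟨k, hk⟩ := Finset.card_ne_zero.1 h3
    rw [Finset.mem_filter, Finset.mem_Icc, one_mul, Real.rpow_one, Nat.floor_natCast] at hk
    exact ⟨k, hk.1.1, hk.1.2, hk.2⟩
  · obtain ⟨Ω, i1, μ, i2, A, h1, h2, h3⟩ := hneg 2 2 1 1 le_rfl one_pos one_pos
    rw [e14] at h2
    refine ⟨Ω, i1, μ, i2, A, h1, h2, ?_⟩
    filter_upwards [h3] with ω h4
    refine ⟨h4.1, fun j hj h5 => ?_⟩
    obtain ⟨k, hk1, hk2, hk3⟩ := h5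
    have h6 : 2 ^ 2 ≤ 2 ^ j := Nat.pow_le_pow_right (by norm_num) hj
    have h7 := h4.2 j (by omega)
    unfold num at h7
    rw [Finset.card_eq_zero, Finset.filter_eq_empty_iff] at h7
    refine h7 (x := k) ?_ hk3
    rw [Finset.mem_Icc, one_mul, Real.rpow_one, Nat.floor_natCast]
    exact ⟨hk1, hk2⟩

end Pool.Agent.Results.MP_c971ef_nt.InformationThreshold
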