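import Pool.Agent.Q197.SP.Rc97

/-!
# `2 k + 1` and `p_(k n) ^ 2 - 2` in Cramér's random model: extremal order of the least `k`

`A` is Cramér's random model of the primes and `el S m` the `m`-th element `≥ 3` of `S`, the model of the `m`-th prime.
For `n ≥ 1` let `k(n)` be the least `k ≥ 1` such that `2 k + 1` and `el A (k n) ^ 2 - 2` are elements of `A`. Almost
surely `k(n)` exists for all large `n`, its upper limit relative to `log² n log log n` is `4`, and the number of `n ≤ N`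
with `k(n) > c log² n log log n` is `N ^ (1 - c / 4 + o(1))`.
-/

set_option autoImplicit false

namespace Pool.Agent.Results.MP_c971ef_nt.LeastMultiplierOrder

open MeasureTheory Filter Pool.Agent.Q120.MF Pool.Agent.Q197.CI Pool.Agent.Q197.SP.Rc97
open scoped Topology

theorem result :
    (∃ (Ω : Type) (_ : MeasurableSpace Ω) (μ : Measure Ω) (A : Ω → Set ℕ), IsProbabilityMeasure μ ∧ IsCramer μ A) ∧
    ∀ (Ω : Type) [MeasurableSpace Ω] (μ : Measure Ω) [IsProbabilityMeasure μ] (A : Ω → Set ℕ), IsCramer μ A →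
      -- the question, for all large `n`
      (∀ᵐ ω ∂μ, (A ω).Infinite ∧ ∀ᶠ n : ℕ in atTop, ∃ k : ℕ, 1 ≤ k ∧ k ≤ n ∧ Sol (A ω) n k) ∧
      -- the least solution
      (∀ c : ℝ, 4 < c → ∀ᵐ ω ∂μ, ∀ᶠ n : ℕ in atTop,
        ∃ k : ℕ, 1 ≤ k ∧ (k : ℝ) ≤ c * (Real.log n ^ 2 * Real.log (Real.log n)) ∧ Sol (A ω) n k) ∧
      (∀ c : ℝ, 0 < c → c < 4 → ∀ᵐ ω ∂μ, Tendsto (fun N : ℕ =>
        Real.log (cntP (fun n => NoSol (Sol (A ω)) n (c * (Real.log n ^ 2 * Real.log (Real.log n)))) N) / Real.log N)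
          atTop (𝓝 (1 - c / 4))) := by
  refine ⟨all_parts.1, fun Ω _ μ _ A hA => ?_⟩
  obtain ⟨h1, h2, h3, _, _⟩ := all_parts.2 Ω μ A hA
  exact ⟨h1, h2, h3⟩

end Pool.Agent.Results.MP_c971ef_nt.LeastMultiplierOrder
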