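import Pool.Agent.Q197.SP.Rc97

/-!
# `2 k + 1` and `p_(k n) ^ 2 - 2` in Cramér's random model: the number of all `k ≤ n`

`A` is Cramér's random model of the primes and `el S m` the `m`-th element `≥ 3` of `S`, the model of the `m`-th prime.
Almost surely, the number of the `k ≤ n` such that `2 k + 1` and `el A (k n) ^ 2 - 2` are elements of `A` is asymptotic
to `n / (4 log² n)` as `n` tends to infinity (for all `n`, without exceptions).
-/

set_option autoImplicit false

namespace Pool.Agent.Results.MP_c971ef_nt.NumberOfMultipliers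

open MeasureTheory Filter Pool.Agent.Q120.MF Pool.Agent.Q197.CI Pool.Agent.Q197.SP.Rc97
open scoped Topology

theorem result :
    (∃ (Ω : Type) (_ : MeasurableSpace Ω) (μ : Measure Ω) (A : Ω → Set ℕ), IsProbabilityMeasure μ ∧ IsCramer μ A) ∧
    ∀ (Ω : Type) [MeasurableSpace Ω] (μ : Measure Ω) [IsProbabilityMeasure μ] (A : Ω → Set ℕ), IsCramer μ A →
      ∀ᵐ ω ∂μ, Tendsto (fun n : ℕ => ({k : ℕ | 1 ≤ k ∧ k ≤ n ∧ Sol (A ω) n k}.ncard : ℝ) * Real.log n ^ 2 / n) atTop
        (𝓝 (1 / 4)) := by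
  refine ⟨all_parts.1, fun Ω _ μ _ A hA => ?_⟩
  exact (all_parts.2 Ω μ A hA).2.2.2.2

end Pool.Agent.Results.MP_c971ef_nt.NumberOfMultipliers
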